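import Pool.Agent.H112.NF.Mom

/-!
# Linear independence of the zeros of the Artin L-functions of a Galois extension, by the length of the relations

`M/K` is a Galois extension of number fields with group `G` (the question is about `K = ℚ`).  For an irreducible
character `χ` of `G` let `S_χ(u)` be the sum over the powers `v^(n+1)` of the unramified primes `v` of `K` of
`χ(Frob_v^(n+1)) log q_v q_v^(-(n+1)/2) exp (-|u - (n+1) log q_v|)`, minus `(8/3) e^(u/2)` if `χ = 1`; `m_χ` is the order of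
`L(s, χ)` at `1/2`, `c = ∑ m_χ` and `F = - Re ∑ S_χ - 2 c`.  Let `∑ χ = ∑_H r(H) Ind_H^G 1` with rational numbers `r(H)` (they
exist by Artin's theorem), and `V = ∑_H r(H) V_{M^H}`, `V_E = 2 (ξ_E'/ξ_E)(3/2) - 2 (ξ_E'/ξ_E)'(3/2)`, `ξ_E` the completed
Dedekind zeta function.

For every length `k` the following are equivalent.

(A) Artin's conjecture and the Riemann hypothesis for all `L(s, χ)`, simple zeros off the centre, and no nontrivial
integer relation `∑ n_i γ_i = 0` with `∑ |n_i| ≤ k` and `∑ |n_i| ≡ k mod 2` between the positive ordinates of the zeros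
of all `L(s, χ)` (with multiplicity).

(B) `m_χ ≥ 0` for all `χ`, the sum of the mean squares of the `S_χ` is at most `V + 4 ∑ m_χ (m_χ - 1) + o(1)`, and the mean of
`F^k` is at most `μ_k + o(1)`, `μ_k` the `k`-th derivative at `0` of an explicit function, `exp` of a contour integral of
logarithmic derivatives of Dedekind zeta functions times a power of a Bessel function.

All levels together are the linear independence over `ℚ` of the multiset of the positive ordinates.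
-/

set_option autoImplicit false
set_option linter.unusedSectionVars false

namespace Pool.Agent.Results.MP_0f5a55_nt.GaloisRelationsByLength

open MeasureTheory Filter Topology Set Complex NumberField IsDedekindDomain
open Pool.Agent.Q92.AR (Unramified frob artinL cont)
open Pool.Agent.Q92.RT (induced)
open Pool.Agent.H541R3.ART (irrF)

/-- the completed Dedekind zeta function times `s (s - 1)`, for `Re s > 1` -/
noncomputable def xi (E : Type) [Field E] [NumberField E] (s : ℂ) : ℂ :=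
  s * (s - 1) * ((|(discr E : ℝ)| : ℝ) : ℂ) ^ (s / 2) * Gammaℝ s ^ InfinitePlace.nrRealPlaces E *
    Gammaℂ s ^ InfinitePlace.nrComplexPlaces E * dedekindZeta E s

/-- the constant of a field -/
noncomputable def VE (E : Type) [Field E] [NumberField E] : ℝ :=
  2 * (logDeriv (xi E) (3 / 2) - deriv (logDeriv (xi E)) (3 / 2)).re

/-- the Bessel function `I₀` -/
noncomputable def I₀ (w : ℂ) : ℂ := ∑' k : ℕ, (w / 2) ^ (2 * k) / ((Nat.factorial k : ℂ) ^ 2)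

/-- no nontrivial relation `∑ n_i g_i = 0` of a length `∑ |n_i|` which is at most `k` and of the parity of `k` -/
def NoRel {ι : Type} (g : ι → ℝ) (k : ℕ) : Prop :=
  ∀ n : ι →₀ ℤ, ∑ i ∈ n.support, (n i : ℝ) * g i = 0 → ∑ i ∈ n.support, |n i| ≤ (k : ℤ) →
    Even ((k : ℤ) - ∑ i ∈ n.support, |n i|) → n = 0

section
variable {K M : Type} [Field K] [NumberField K] [Field M] [NumberField M] [Algebra K M] [IsGalois K M]

/-- the order at `s` of the meromorphic continuation of the Artin L-function `L(s, χ)` -/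
noncomputable def ord (χ : (M ≃ₐ[K] M) → ℂ) (s : ℂ) : ℤ := (meromorphicOrderAt (cont (artinL M χ)) s).untop₀

open Classical in
/-- the sum over the prime powers, minus the main term -/
noncomputable def S (χ : (M ≃ₐ[K] M) → ℂ) (u : ℝ) : ℂ :=
  (∑' x : HeightOneSpectrum (𝓞 K) × ℕ, if Unramified M x.1 then χ (frob M x.1 ^ (x.2 + 1)) *
    ((Real.log (Ideal.absNorm x.1.asIdeal) *
      Real.exp (-(((x.2 : ℝ) + 1) * Real.log (Ideal.absNorm x.1.asIdeal) / 2)) *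
      Real.exp (-|u - ((x.2 : ℝ) + 1) * Real.log (Ideal.absNorm x.1.asIdeal)|) : ℝ) : ℂ) else 0) -
    if ∀ g, χ g = 1 then ((8 / 3 * Real.exp (u / 2) : ℝ) : ℂ) else 0

/-- the mean square -/
noncomputable def W (χ : (M ≃ₐ[K] M) → ℂ) (U : ℝ) : ℝ := (1 / U) * ∫ u in (0 : ℝ)..U, ‖S χ u‖ ^ 2

variable (K M) in
/-- the total order at `1/2` -/
noncomputable def cen : ℤ := ∑ χ ∈ irrF (M ≃ₐ[K] M), ord χ (1 / 2)

variable (K M) in
/-- the `k`-th moment of the sum of the `S_χ`, without the contribution of the centre -/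
noncomputable def Mo (k : ℕ) (U : ℝ) : ℝ :=
  (1 / U) * ∫ u in (0 : ℝ)..U, (-(∑ χ ∈ irrF (M ≃ₐ[K] M), S χ u).re - 2 * (cen K M : ℝ)) ^ k

/-- the sum of the irreducible characters is the combination of the permutation characters with the coefficients `r` -/
def Rel (r : Subgroup (M ≃ₐ[K] M) → ℚ) : Prop :=
  ∀ g, ∑ χ ∈ irrF (M ≃ₐ[K] M), χ g = ∑ᶠ H : Subgroup (M ≃ₐ[K] M), (r H : ℂ) * induced H (1 : H →* ℂˣ) g

/-- the constant for the mean squares -/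
noncomputable def V (r : Subgroup (M ≃ₐ[K] M) → ℚ) : ℝ :=
  ∑ᶠ H : Subgroup (M ≃ₐ[K] M), (r H : ℝ) * VE (IntermediateField.fixedField H)

/-- the circle function -/
noncomputable def Z (r : Subgroup (M ≃ₐ[K] M) → ℚ) (t : ℂ) : ℂ :=
  (1 - t) ^ (-(1 / 2) : ℂ) * ∑ᶠ H : Subgroup (M ≃ₐ[K] M),
    (r H : ℂ) * logDeriv (xi (IntermediateField.fixedField H)) (1 / 2 + (1 - t) ^ (1 / 2 : ℂ))

/-- the exponential mean for independent frequencies -/
noncomputable def R (r : Subgroup (M ≃ₐ[K] M) → ℚ) (lam : ℝ) : ℝ :=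
  Real.exp (1 / (4 * Real.pi * I) * ∮ t in C(0, 1 / 2), Z r t * Complex.log (I₀ (4 * lam / t))).re

/-- the `k`-th moment for independent frequencies -/
noncomputable def μ (r : Subgroup (M ≃ₐ[K] M) → ℚ) (k : ℕ) : ℝ :=
  iteratedDeriv k (fun lam => R r lam / Real.sqrt (I₀ ((4 * lam : ℝ) : ℂ)).re ^ (cen K M).toNat) 0

variable (K M) in
/-- the multiset of the positive ordinates of the zeros of all L-functions on the critical line -/
abbrev Zeros : Type := Σ χ : {χ // χ ∈ irrF (M ≃ₐ[K] M)}, Σ γ : {γ : ℝ // 0 < γ}, Fin (ord χ.1 (1 / 2 + (γ : ℝ) * I)).toNat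

variable (K M) in
open Classical in
/-- Artin's conjecture and the Riemann hypothesis for `Re s ≥ 1/2` -/
def ArtinGRH : Prop := ∀ χ ∈ irrF (M ≃ₐ[K] M),
  (∀ s : ℂ, 1 / 2 < s.re → ord χ s = if s = 1 ∧ ∀ g, χ g = 1 then -1 else 0) ∧ ∀ γ : ℝ, 0 ≤ ord χ (1 / 2 + γ * I)

/-- the mean square inequality, and no poles at `1/2` -/
def Squares (r : Subgroup (M ≃ₐ[K] M) → ℚ) : Prop :=
  (∀ χ ∈ irrF (M ≃ₐ[K] M), 0 ≤ ord χ (1 / 2)) ∧
  ∀ ε : ℝ, 0 < ε → ∀ᶠ U : ℝ in atTop, ∑ χ ∈ irrF (M ≃ₐ[K] M), W χ U ≤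
    V r + ∑ χ ∈ irrF (M ≃ₐ[K] M), 4 * ((ord χ (1 / 2) : ℝ) * ((ord χ (1 / 2) : ℝ) - 1)) + ε

variable (K M) in
/-- the total order at `1/2 + iγ` -/
noncomputable def tot (γ : ℝ) : ℤ := ∑ χ ∈ irrF (M ≃ₐ[K] M), ord χ (1 / 2 + γ * I)

end

open Pool.Agent.H112.NF (ordA NN Nice nice_iff' li_two NN_nonneg ord_le_NN le_one_of_LI GRH mu mom_main noRel_two)
open Pool.Agent.H541R3.ART (mem_irrF)

section
variable {K M : Type} [Field K] [NumberField K] [Field M] [NumberField M] [Algebra K M] [IsGalois K M]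

theorem cc : (1 / 2 : ℂ) + ((0 : ℝ) : ℂ) * I = 1 / 2 := by
  rw [Complex.ofReal_zero, zero_mul, add_zero]

theorem cen_eq : NN K M 0 = cen K M := by
  unfold NN
  rw [cc]
  rfl

theorem squares_iff {r : Subgroup (M ≃ₐ[K] M) → ℚ} (hr : Rel r) :
    Squares r ↔ ArtinGRH K M ∧ ∀ χ ∈ irrF (M ≃ₐ[K] M), ∀ γ : ℝ, γ ≠ 0 → ord χ (1 / 2 + γ * I) ≤ 1 := by
  have h1 := nice_iff' (K := K) (M := M) hr
  constructor
  · rintro ⟨h2, h3⟩
    have h4 := h1.2 h3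
    refine ⟨fun χ hχ => ⟨(h4 χ (mem_irrF.1 hχ)).1, fun γ => ?_⟩, fun χ hχ γ hγ =>
      ((h4 χ (mem_irrF.1 hχ)).2 γ hγ).2⟩
    by_cases hγ : γ = 0
    · subst hγ
      rw [cc]
      exact h2 χ hχ
    · exact ((h4 χ (mem_irrF.1 hχ)).2 γ hγ).1
  · rintro ⟨h2, h3⟩
    refine ⟨fun χ hχ => ?_, h1.1 fun χ hχ => ⟨(h2 χ (mem_irrF.2 hχ)).1, fun γ hγ =>
      ⟨(h2 χ (mem_irrF.2 hχ)).2 γ, h3 χ (mem_irrF.2 hχ) γ hγ⟩⟩⟩
    have := (h2 χ hχ).2 0
    rwa [cc] at this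

theorem moments {r : Subgroup (M ≃ₐ[K] M) → ℚ} (hr : Rel r) (hA : ArtinGRH K M) (k : ℕ) :
    Tendsto (Mo K M k) atTop (𝓝 (Pool.Agent.Q253.NF.TN (fun γ => (NN K M γ).toNat) k)) ∧
    μ r k ≤ Pool.Agent.Q253.NF.TN (fun γ => (NN K M γ).toNat) k ∧
    (NoRel (fun x : Zeros K M => (x.2.1 : ℝ)) k ↔
      ∀ ε : ℝ, 0 < ε → ∀ᶠ U : ℝ in atTop, Mo K M k U ≤ μ r k + ε) ∧
    (NoRel (fun x : Zeros K M => (x.2.1 : ℝ)) k ↔ Tendsto (Mo K M k) atTop (𝓝 (μ r k))) := by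
  have h0 : ∀ χ ∈ irrF (M ≃ₐ[K] M), ∀ γ : ℝ, 0 ≤ ordA χ (1 / 2 + γ * I) := fun χ hχ => (hA χ hχ).2
  have hG : ∀ χ ∈ Pool.Agent.H541R3.ART.Irr (M ≃ₐ[K] M), GRH χ := fun χ hχ => (hA χ (mem_irrF.2 hχ)).1
  obtain ⟨h1, h2, h3, h4, -⟩ := mom_main hG (fun γ => NN_nonneg h0 γ) hr k
  have h5 := noRel_two (K := K) (M := M) (fun χ hχ γ _ => h0 χ hχ γ) k
  have h6 : (((NN K M 0).toNat : ℕ) : ℝ) = (cen K M : ℝ) := by
    have h7 : (((NN K M 0).toNat : ℕ) : ℤ) = cen K M := by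
      rw [Int.toNat_of_nonneg (NN_nonneg h0 0), cen_eq]
    exact_mod_cast congrArg (fun n : ℤ => (n : ℝ)) h7
  have h8 : mu r (NN K M 0).toNat k = μ r k := by
    rw [cen_eq]
    rfl
  rw [h6] at h1 h4
  rw [h8] at h2 h3 h4
  refine ⟨h1, h2, h5.trans h4, h5.trans ⟨fun h => ?_, fun h => ?_⟩⟩
  · rw [← h3.1 h]
    exact h1
  · exact h3.2 (tendsto_nhds_unique h1 h)

theorem tot_toNat (hA : ArtinGRH K M) (γ : ℝ) : (((NN K M γ).toNat : ℕ) : ℝ) = (tot K M γ : ℝ) := by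
  have h0 : ∀ χ ∈ irrF (M ≃ₐ[K] M), ∀ γ : ℝ, 0 ≤ ordA χ (1 / 2 + γ * I) := fun χ hχ => (hA χ hχ).2
  have h7 : (((NN K M γ).toNat : ℕ) : ℤ) = tot K M γ := Int.toNat_of_nonneg (NN_nonneg h0 γ)
  exact_mod_cast congrArg (fun n : ℤ => (n : ℝ)) h7

end

open Classical in
theorem result (K M : Type) [Field K] [NumberField K] [Field M] [NumberField M] [Algebra K M] [IsGalois K M] :
    (∃ r : Subgroup (M ≃ₐ[K] M) → ℚ, Rel r) ∧
    ∀ r : Subgroup (M ≃ₐ[K] M) → ℚ, Rel r →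
    -- each level
    (∀ k : ℕ, (ArtinGRH K M ∧ (∀ χ ∈ irrF (M ≃ₐ[K] M), ∀ γ : ℝ, γ ≠ 0 → ord χ (1 / 2 + γ * I) ≤ 1) ∧
        NoRel (fun x : Zeros K M => (x.2.1 : ℝ)) k) ↔
      (Squares r ∧ ∀ ε : ℝ, 0 < ε → ∀ᶠ U : ℝ in atTop, Mo K M k U ≤ μ r k + ε)) ∧
    -- all levels: linear independence
    ((ArtinGRH K M ∧ LinearIndependent ℚ (fun x : Zeros K M => (x.2.1 : ℝ))) ↔
      (Squares r ∧ ∀ k : ℕ, ∀ ε : ℝ, 0 < ε → ∀ᶠ U : ℝ in atTop, Mo K M k U ≤ μ r k + ε)) ∧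
    -- the moments under Artin's conjecture and the Riemann hypothesis
    (ArtinGRH K M → ∀ k : ℕ,
      Tendsto (Mo K M k) atTop (𝓝 (∑' s : Fin k → ℝ, if ∑ l, s l = 0 ∧ ∀ l, s l ≠ 0 then
        ∏ l, (tot K M (s l) : ℝ) * (2 / (1 + s l ^ 2)) else 0)) ∧
      (∀ ε : ℝ, 0 < ε → ∀ᶠ U : ℝ in atTop, μ r k - ε ≤ Mo K M k U) ∧
      (NoRel (fun x : Zeros K M => (x.2.1 : ℝ)) k ↔ Tendsto (Mo K M k) atTop (𝓝 (μ r k)))) := by
  refine ⟨Pool.Agent.H112.NF.exists_rel K M, fun r hr => ⟨fun k => ?_, ?_, fun hA k => ?_⟩⟩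
  · rw [squares_iff hr]
    constructor
    · rintro ⟨hA, h1, h2⟩
      exact ⟨⟨hA, h1⟩, (moments hr hA k).2.2.1.1 h2⟩
    · rintro ⟨⟨hA, h1⟩, h2⟩
      exact ⟨hA, h1, (moments hr hA k).2.2.1.2 h2⟩
  · rw [squares_iff hr, Pool.Agent.Q68.LM.t_LI _ (fun x : Zeros K M => (x.2.1 : ℝ))]
    constructor
    · rintro ⟨hA, h1⟩
      have h0 : ∀ χ ∈ irrF (M ≃ₐ[K] M), ∀ γ : ℝ, 0 ≤ ordA χ (1 / 2 + γ * I) := fun χ hχ => (hA χ hχ).2
      have h3 := (li_two h0).1 ((Pool.Agent.Q68.LM.t_LI _ (fun x : Zeros K M => (x.2.1 : ℝ))).2 h1)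
      exact ⟨⟨hA, fun χ hχ γ hγ => (ord_le_NN h0 hχ γ).trans (le_one_of_LI h0 h3 hγ)⟩,
        fun k => (moments hr hA k).2.2.1.1 (h1 k)⟩
    · rintro ⟨⟨hA, h1⟩, h2⟩
      exact ⟨hA, fun k => (moments hr hA k).2.2.1.2 (h2 k)⟩
  · obtain ⟨h1, h2, -, h4⟩ := moments hr hA k
    refine ⟨?_, fun ε hε => ?_, h4⟩
    · have h3 : Pool.Agent.Q253.NF.TN (fun γ => (NN K M γ).toNat) k =
          ∑' s : Fin k → ℝ, if ∑ l, s l = 0 ∧ ∀ l, s l ≠ 0 then
            ∏ l, (tot K M (s l) : ℝ) * (2 / (1 + s l ^ 2)) else 0 := by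
        unfold Pool.Agent.Q253.NF.TN
        simp only [tot_toNat hA]
      rw [← h3]
      exact h1
    · exact (h1.eventually (eventually_gt_nhds (lt_of_lt_of_le (sub_lt_self _ hε) h2))).mono fun U hU => hU.le

end Pool.Agent.Results.MP_0f5a55_nt.GaloisRelationsByLength
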