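import Pool.Agent.H474.GRW.Fin

/-!
# Zeros and poles of products of Dirichlet L-functions with exponents of both signs

Unconditional.  `q i = 1` is allowed and gives the Riemann zeta function.
-/

set_option autoImplicit false

open Complex Filter Topology

namespace Pool.Agent.Results.MP_0f5a55_nt.MixedProducts

/-- the box `0 < Re s < 1`, `T < Im s ≤ 2T` -/
def Box (T : ℝ) : Set ℂ := {s : ℂ | 0 < s.re ∧ s.re < 1 ∧ T < s.im ∧ s.im ≤ 2 * T}

/-- the main term of the number of the zeros of one Dirichlet L-function in the box -/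
noncomputable def main (T : ℝ) : ℝ := T / (2 * Real.pi) * Real.log T

/-- the order of the zero of `L(z + i t, χ)` at `z = s` (`0` if it does not vanish there) -/
noncomputable def ord {q : ℕ} [NeZero q] (χ : DirichletCharacter ℂ q) (t : ℝ) (s : ℂ) : ℕ :=
  analyticOrderNatAt (DirichletCharacter.LFunction χ) (s + I * t)

section

variable {ι : Type} [Fintype ι] {q : ι → ℕ} [∀ i, NeZero (q i)]

/-- the order at `s` of the product `∏ i, L(z + i t_i, χ_i) ^ (n_i)`: positive at a zero, negative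
at a pole -/
noncomputable def ordProd (χ : ∀ i, DirichletCharacter ℂ (q i)) (t : ι → ℝ) (n : ι → ℤ) (s : ℂ) : ℤ :=
  ∑ i, n i * (ord (χ i) (t i) s : ℤ)

/-- the number of the zeros of the product in the box, with multiplicity -/
noncomputable def zeros (χ : ∀ i, DirichletCharacter ℂ (q i)) (t : ι → ℝ) (n : ι → ℤ) (T : ℝ) : ℝ :=
  ∑ᶠ s ∈ Box T, max (ordProd χ t n s : ℝ) 0

/-- the number of the poles of the product in the box, with multiplicity -/
noncomputable def poles (χ : ∀ i, DirichletCharacter ℂ (q i)) (t : ι → ℝ) (n : ι → ℤ) (T : ℝ) : ℝ :=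
  ∑ᶠ s ∈ Box T, max (-(ordProd χ t n s : ℝ)) 0

/-- the Euclidean norm -/
noncomputable def nrm (x : ι → ℝ) : ℝ := Real.sqrt (∑ i, x i ^ 2)

end

open Pool.Agent.H474.GRW

lemma net_eq {ι : Type} [Fintype ι] {q : ι → ℕ} [∀ i, NeZero (q i)]
    (χ : ∀ i, DirichletCharacter ℂ (q i)) (t : ι → ℝ) (n : ι → ℤ) (s : ℂ) :
    (ordProd χ t n s : ℝ) = net χ t (fun i => (n i : ℝ)) s := by
  unfold ordProd net
  push_cast
  refine Finset.sum_congr rfl fun i _ => ?_
  rw [mult_LS]
  rfl

/-- the elementary argument -/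
lemma elem {c : ℝ} (hc : 0 < c) : ∃ C : ℝ, 0 < C ∧ ∀ x k D : ℝ, 1 ≤ D → 1 ≤ k → k ≤ x ^ 2 → 1 ≤ x →
    c / Real.log (2 * k) * x ≤ D → x ^ 2 ≤ C * D ^ 2 * Real.log (2 * D) ^ 2 := by
  obtain ⟨M, hM⟩ : ∃ M : ℝ, M = |Real.log (1250 / c ^ 4)| / Real.log 2 + 4 := ⟨_, rfl⟩
  have hl2 : 0 < Real.log 2 := Real.log_pos (by norm_num)
  have hM0 : 0 < M := by rw [hM]; positivity
  refine ⟨(M / c) ^ 2, by positivity, ?_⟩
  intro x k D hD hk hkx hx h
  have hx0 : 0 < x := by linarith
  have hlk : 0 < Real.log (2 * k) := Real.log_pos (by linarith)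
  have hlx : Real.log (2 * k) ≤ Real.log (2 * x ^ 2) := Real.log_le_log (by linarith) (by linarith)
  have h1 : c * x ≤ D * Real.log (2 * x ^ 2) := by
    rw [div_mul_eq_mul_div, div_le_iff₀ hlk] at h
    exact h.trans (mul_le_mul_of_nonneg_left hlx (by linarith))
  -- the crude bound
  set y := Real.sqrt x with hy
  have hy0 : 0 < y := Real.sqrt_pos.2 hx0
  have hy2 : y ^ 2 = x := Real.sq_sqrt hx0.le
  have h2 : Real.log (2 * x ^ 2) ≤ 5 * y := by
    have e1 : (2 : ℝ) * x ^ 2 = 2 * y ^ 4 := by rw [← hy2]; ring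
    rw [e1, Real.log_mul (by norm_num) (by positivity), Real.log_pow]
    have h3 := Real.log_le_sub_one_of_pos hy0
    have h4 := Real.log_two_lt_d9
    have h5 : 1 ≤ y := by
      rw [hy]; exact Real.one_le_sqrt.2 hx
    push_cast
    linarith
  have h3 : c * y ≤ 5 * D := by
    have h4 : c * y * y ≤ 5 * D * y := by
      calc c * y * y = c * x := by rw [← hy2]; ring
        _ ≤ D * Real.log (2 * x ^ 2) := h1
        _ ≤ D * (5 * y) := mul_le_mul_of_nonneg_left h2 (by linarith)
        _ = 5 * D * y := by ring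
    exact le_of_mul_le_mul_right h4 hy0
  have h4 : 2 * x ^ 2 ≤ 1250 / c ^ 4 * D ^ 4 := by
    have h5 : (c * y) ^ 4 ≤ (5 * D) ^ 4 := pow_le_pow_left₀ (by positivity) h3 4
    have h6 : c ^ 4 * x ^ 2 ≤ 625 * D ^ 4 := by
      have e1 : (c * y) ^ 4 = c ^ 4 * (y ^ 2) ^ 2 := by ring
      have e2 : (5 * D) ^ 4 = 625 * D ^ 4 := by ring
      rw [e1, e2, hy2] at h5
      exact h5
    rw [div_mul_eq_mul_div, le_div_iff₀ (by positivity)]
    linarith
  have h5 : Real.log (2 * x ^ 2) ≤ M * Real.log (2 * D) := by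
    have h6 : Real.log (2 * x ^ 2) ≤ Real.log (1250 / c ^ 4) + 4 * Real.log D := by
      refine (Real.log_le_log (by positivity) h4).trans (le_of_eq ?_)
      rw [Real.log_mul (by positivity) (by positivity), Real.log_pow]
      push_cast
      ring
    have h7 : Real.log D ≤ Real.log (2 * D) := Real.log_le_log (by linarith) (by linarith)
    have h8 : Real.log 2 ≤ Real.log (2 * D) := Real.log_le_log (by norm_num) (by linarith)
    have h9 : |Real.log (1250 / c ^ 4)| ≤ |Real.log (1250 / c ^ 4)| / Real.log 2 * Real.log (2 * D) := by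
      have : |Real.log (1250 / c ^ 4)| / Real.log 2 * Real.log 2 = |Real.log (1250 / c ^ 4)| := by
        field_simp
      calc |Real.log (1250 / c ^ 4)| = |Real.log (1250 / c ^ 4)| / Real.log 2 * Real.log 2 := this.symm
        _ ≤ _ := mul_le_mul_of_nonneg_left h8 (by positivity)
    have h10 := le_abs_self (Real.log (1250 / c ^ 4))
    rw [hM, add_mul]
    linarith
  have h6 : x ≤ M / c * D * Real.log (2 * D) := by
    have h7 : c * x ≤ M * D * Real.log (2 * D) := by
      refine h1.trans ((mul_le_mul_of_nonneg_left h5 (by linarith)).trans (le_of_eq ?_))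
      ring
    have e : M / c * D * Real.log (2 * D) = (M * D * Real.log (2 * D)) / c := by ring
    rw [e, le_div_iff₀ hc]
    linarith
  refine (pow_le_pow_left₀ hx0.le h6 2).trans (le_of_eq ?_)
  ring

/-- **Zeros and poles of mixed products of Dirichlet L-functions.**  There are absolute constants
`c, C > 0` such that for all `k ≥ 1` and all distinct pairs `(χ_i, t_i)`, `i = 1, …, k`, `χ_i`
primitive Dirichlet characters, `t_i` real:

(1) for all large `T` and all real `λ`, the sum over the points of the box of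
`|∑ λ_i ord_i(s)|` is at least `c ‖λ‖ (T/2π) log T / log 2k`;

(2) for integers `n_i` with sum `D`, the product `∏ L(s + i t_i, χ_i)^(n_i)` has, in the box, at
least `(c ‖n‖ / log 2k + D - ε) (T/2π) log T / 2` zeros and at least
`(c ‖n‖ / log 2k - D - ε) (T/2π) log T / 2` poles;

(3) if all `n_i ≠ 0` and the product has few poles (in particular if it is entire), then `D ≥ 1` and
`∑ n_i² ≤ C D² log² 2D`. -/
theorem result : ∃ c C : ℝ, 0 < c ∧ 0 < C ∧ ∀ (ι : Type) [Fintype ι] [Nonempty ι] (q : ι → ℕ)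
    [∀ i, NeZero (q i)] (χ : ∀ i, DirichletCharacter ℂ (q i)) (_ : ∀ i, (χ i).IsPrimitive)
    (t : ι → ℝ) (_ : ∀ i j, i ≠ j → (∃ m : ℕ, χ i m ≠ χ j m) ∨ t i ≠ t j),
    (∀ᶠ T : ℝ in atTop, ∀ lam : ι → ℝ,
      c / Real.log (2 * Fintype.card ι) * nrm lam * main T ≤
        ∑ᶠ s ∈ Box T, |∑ i, lam i * (ord (χ i) (t i) s : ℝ)|) ∧
    (∀ n : ι → ℤ, ∀ ε : ℝ, 0 < ε → ∀ᶠ T : ℝ in atTop,
      (c / Real.log (2 * Fintype.card ι) * nrm (fun i => (n i : ℝ)) + ∑ i, (n i : ℝ) - ε) * main T ≤
        2 * zeros χ t n T ∧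
      (c / Real.log (2 * Fintype.card ι) * nrm (fun i => (n i : ℝ)) - ∑ i, (n i : ℝ) - ε) * main T ≤
        2 * poles χ t n T) ∧
    (∀ n : ι → ℤ, (∀ i, n i ≠ 0) →
      (∀ ε : ℝ, 0 < ε → ∃ᶠ T : ℝ in atTop, poles χ t n T ≤ ε * main T) →
      1 ≤ ∑ i, n i ∧
      ∑ i, (n i : ℝ) ^ 2 ≤ C * (∑ i, (n i : ℝ)) ^ 2 * Real.log (2 * ∑ i, (n i : ℝ)) ^ 2) := by
  obtain ⟨c, hc, H⟩ := grow_all
  obtain ⟨C, hC, hel⟩ := elem hc
  refine ⟨c, C, hc, hC, ?_⟩
  intro ι _ _ q _ χ hχ t hne
  obtain ⟨h1, h2⟩ := H ι q χ hχ t (fun i j hij => by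
    rcases hne i j hij with ⟨m, hm⟩ | h
    · exact Or.inl fun h => hm (h m)
    · exact Or.inr h)
  have hz : ∀ (n : ι → ℤ) T, zeros χ t n T = Sg (fun x => max x 0) χ t (fun i => (n i : ℝ)) T := by
    intro n T
    unfold zeros Sg
    refine finsum_congr fun s => finsum_congr fun _ => ?_
    rw [net_eq]
  have hp : ∀ (n : ι → ℤ) T, poles χ t n T = Sg (fun x => max (-x) 0) χ t (fun i => (n i : ℝ)) T := by
    intro n T
    unfold poles Sg
    refine finsum_congr fun s => finsum_congr fun _ => ?_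
    rw [net_eq]
  refine ⟨?_, ?_, ?_⟩
  · filter_upwards [h1] with T h1
    intro lam
    refine (h1 lam).trans (le_of_eq ?_)
    unfold Sg
    refine finsum_congr fun s => finsum_congr fun _ => ?_
    unfold net
    congr 1
    refine Finset.sum_congr rfl fun i _ => ?_
    rw [mult_LS]
    rfl
  · intro n ε hε
    filter_upwards [h2 (fun i => (n i : ℝ)) ε hε] with T h
    rw [hz, hp]
    exact h
  · intro n hn hpo
    set k : ℝ := (Fintype.card ι : ℝ) with hk
    set D : ℝ := ∑ i, (n i : ℝ) with hD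
    have hk1 : 1 ≤ k := by
      rw [hk]
      exact_mod_cast Fintype.card_pos
    have hlk : 0 < Real.log (2 * k) := Real.log_pos (by linarith)
    have hkey : c / Real.log (2 * k) * nrm (fun i => (n i : ℝ)) ≤ D := by
      by_contra hcon
      push Not at hcon
      set ε : ℝ := (c / Real.log (2 * k) * nrm (fun i => (n i : ℝ)) - D) / 4 with hε
      have hε0 : 0 < ε := by rw [hε]; linarith
      obtain ⟨T, hT1, hT2, hT3⟩ := ((hpo ε hε0).and_eventually
        ((h2 (fun i => (n i : ℝ)) ε hε0).and (eventually_gt_atTop 1))).exists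
      have h3 := hT2.2
      rw [← hp] at h3
      have hm : 0 < main T := by
        unfold main
        have := Real.log_pos hT3
        have := Real.pi_pos
        have : 0 < T := by linarith
        positivity
      have h4 : (c / Real.log (2 * k) * nrm (fun i => (n i : ℝ)) - D - ε) * main T ≤ 2 * (ε * main T) :=
        h3.trans (by linarith)
      have h5 : (c / Real.log (2 * k) * nrm (fun i => (n i : ℝ)) - D - ε) = 3 * ε := by rw [hε]; ring
      rw [h5] at h4
      nlinarith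
    have hks : k ≤ ∑ i, (n i : ℝ) ^ 2 := by
      rw [hk, ← Finset.card_univ, ← nsmul_one, ← Finset.sum_const]
      refine Finset.sum_le_sum fun i _ => ?_
      have h3 : (1 : ℤ) ≤ (n i) ^ 2 := by
        have := sq_nonneg (n i)
        have h4 : (n i) ^ 2 ≠ 0 := pow_ne_zero 2 (hn i)
        omega
      exact_mod_cast h3
    have hx2 : nrm (fun i => (n i : ℝ)) ^ 2 = ∑ i, (n i : ℝ) ^ 2 :=
      Real.sq_sqrt (Finset.sum_nonneg fun i _ => sq_nonneg _)
    have hx1 : 1 ≤ nrm (fun i => (n i : ℝ)) := by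
      unfold nrm
      exact Real.one_le_sqrt.2 (hk1.trans hks)
    have hDpos : 0 < D := lt_of_lt_of_le (by positivity) hkey
    have hD1 : 1 ≤ ∑ i, n i := by
      have h3 : (0 : ℝ) < ((∑ i, n i : ℤ) : ℝ) := by push_cast; exact hDpos
      have h4 : 0 < ∑ i, n i := by exact_mod_cast h3
      omega
    refine ⟨hD1, ?_⟩
    have hD1' : 1 ≤ D := by
      rw [hD]
      exact_mod_cast hD1
    rw [← hx2]
    exact hel _ k D hD1' hk1 (by rw [hx2]; exact hks) hx1 hkey

end Pool.Agent.Results.MP_0f5a55_nt.MixedProducts
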