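import Pool.Agent.H367.OS.OArt
import Mathlib

/-!
# Independence of zeros of Artin `L`-functions and one double sequence of Artin motives

A relation `r` of size `m` is one of the equations `x_i x_j = x_l`, `x_i + x_j = x_l`, `x_i = 1` with
`i, j, l < m`; the relations are numbered, the number of `r` is `ν(r)` (`relNum`). Let `G_m` be the
following polynomial with integral coefficients (`univG ℤ m`). There are variables `x_i` and `z_ij` for
`i, j < m`, a variable `c_r` for every relation `r`, and variables `y_{r,l}` for all relations `r` and
`l < (m + 1) 2 ^ ν(r)`. The equations (`eqnG`) are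

  `z_ij - x_i x_j`,  `c_r ^ 2 - c_r`,  `c_r ρ_r`,  `(1 - c_r) y_{r,l}`,

where `ρ_r` is the linear polynomial `z_ij - x_l`, `x_i + x_j - x_l` or `x_i - 1` of the relation.
`G_m` is the sum of the equations multiplied by further variables `t_e`, one for each equation. It has
degree three. Let `C_m` be the affine cubic hypersurface `G_m = 1` (`cubG R m` over the ring `R`); it is
smooth over the integers.

Let `M` be the category of motives over `ℚ` in the sense of André, a semisimple abelian category with
Tate twists `N ↦ N(a)`. For a separated scheme `X` of finite type over `ℚ` let `D.G w j X = Gr^W_w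
H^j_c(X)` be the part of weight `w` of the cohomology with compact supports, a motive over `ℚ`; for
smooth projective `Y` it is `h^j(Y)` if `j = w`, and zero otherwise. The motives `h^0(Y)` and their
direct factors are the Artin motives over `ℚ` (representations of `Gal(ℚ̄/ℚ)` over `ℚ` with finite
image).

Let `E_m` be the number of the equations, and for `N ∈ ℕ` let `e = (m + 1) N + E_m - 1`
(`esh m N`). Let `V_{m,N}` be the
motive `Gr^W_{2e} H^{2e+1}_c(C_m)(e)` (`single0 D m N`).

The type `I` consists of the irreducible complex characters of the finite quotients of `Gal(ℚ̄/ℚ)`,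
and `occ χ N` says that `χ` occurs in `N ⊗ ℂ`. For a finite Galois extension `L` of `ℚ` let `irr L` be
the set of the irreducible characters of `Gal(L/ℚ)`. These are the characters that occur in `h^0(Spec
L)`. The characters which occur in `h^0(Y)` are characters of `Gal(L/ℚ)` if `L` contains the fields of
constants of the connected components of `Y` (`ArtinMotives`). Let `mult χ γ` be the multiplicity of
the zero `1/2 + i γ` of `L(s, χ)`. `Independent mult S` says that the multiset of the `γ > 0` with
`L(1/2 + i γ, χ) = 0` for the `χ` in `S` is linearly independent over `ℚ`. So question Q1 for `F` is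
`Independent mult (irr F)`.

**Theorem.** (1) For all `m ≥ 1` and `N` the motive `V_{m,N}` is an Artin motive: the characters that
occur in it are characters of `Gal(L/ℚ)` for one finite Galois extension `L` of `ℚ`. For every finite
Galois extension `L` of `ℚ` and all large `m` there is an `N` such that all irreducible characters of
`Gal(L/ℚ)` occur in `V_{m,N}`.

(2) Question Q1 has a positive answer for all finite Galois extensions `F` of `ℚ` if and only if, for
infinitely many `m`, the multiset of the zeros for the irreducible characters which occur in `V_{m,N}`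
is linearly independent over `ℚ`, for all `N`.

(3) For every `F` and all large `m` there is an `N` such that the independence of the zeros for the
characters in the single motive `V_{m,N}` implies question Q1 for `F`. For every `F` and all large `m`
there is also a number `e` such that question Q1 for `F` is the independence of the zeros for the
characters that occur in the motive `Gr^W_{2e} H^{2e+1}_c(C_m)(e)`.

(4) `G_m` has integral coefficients and degree at most three, and `C_m` is smooth over all rings.

The hypotheses on the motives are standard (`IsMot`): exact sequences, affine bundles, disjoint unions,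
the cohomology of affine spaces, the weights of `H^j_c(X)` are between `0` and `2 dim X`, monomorphisms
split, `Gr^W_w H^j_c(X)` is a direct factor of `h^w(Y)` for some smooth projective `Y` (it is a
subquotient, by the weight spectral sequence), and every smooth projective scheme has an affine bundle
whose total space is affine (Jouanolou).

Idea of the proof. The projection of `C_m` to the affine space with the coordinates `x, z, c, y` is an
affine bundle over the complement of the zero set `W_m` of the equations. The scheme `W_m` is the
disjoint union, over all sets `s` of relations (`c_r = 1` for `r ∈ s` and `c_r = 0` for the others), of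
the products `X_s × 𝔸 ^ ((m + 1) N(s))`, where `X_s` is the affine scheme defined by the relations in
`s` and `N(s) = ∑_{r ∈ s} 2 ^ ν(r)`. The numbers `N(s)` are different, and the dimension of `X_s` is at
most `m`. So the invariant of `W_m` with the index `q + (m + 1) N(s)`, `0 ≤ q ≤ m`, is the invariant of
`X_s` with the index `q`; the other components do not contribute. Every affine scheme of finite type
over a prime field is an `X_s`, for all large `m`.

The universal system of relations is the one of helper854 (`Pool.Agent.H854.SQ`).
-/

set_option autoImplicit false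

open CategoryTheory CategoryTheory.Limits AlgebraicGeometry Pool.Agent.Y116.UV Pool.Agent.Z125.UN
  Pool.Agent.Q193.LT Pool.Agent.H854.SQ Pool.Agent.H367.OS

universe w v u



namespace Pool.Agent.Results.MP_0f5a55_nt.PiecesOfOneSequence

/-- The zeros: `mult χ γ` is the multiplicity of the zero `1/2 + i γ` of `L(s, χ)`. The multiset of the
positive `γ`, for all `χ` in the set `S`, is linearly independent over `ℚ`: no value occurs twice, and the
set of the values is linearly independent. -/
def Independent {I : Type w} (mult : I → ℝ → ℕ) (S : Set I) : Prop :=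
  (∀ χ ∈ S, ∀ γ : ℝ, 0 < γ → mult χ γ ≤ 1) ∧
    (∀ χ ∈ S, ∀ χ' ∈ S, ∀ γ : ℝ, 0 < γ → 0 < mult χ γ → 0 < mult χ' γ → χ = χ') ∧
    LinearIndepOn ℚ id {γ : ℝ | 0 < γ ∧ ∃ χ ∈ S, 0 < mult χ γ}

lemma Independent.mono {I : Type w} {mult : I → ℝ → ℕ} {S T : Set I} (h : S ⊆ T)
    (hT : Independent mult T) : Independent mult S :=
  ⟨fun χ hχ => hT.1 χ (h hχ), fun χ hχ χ' hχ' => hT.2.1 χ (h hχ) χ' (h hχ'),
    hT.2.2.mono fun _ hγ => ⟨hγ.1, hγ.2.imp fun _ hχ => ⟨h hχ.1, hχ.2⟩⟩⟩

/-- **Independence of zeros of Artin `L`-functions and one double sequence of Artin motives.** See the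
explanations above. -/
theorem result {M : Type u} [Category.{v} M] [Abelian M] {D : Pieces ℚ M} (h : IsMot D) {I : Type w}
    {occ : I → M → Prop} {irr : ∀ (L : Type) [Field L] [NumberField L], Set I}
    (ha : ArtinMotives D occ irr) (mult : I → ℝ → ℕ) :
    ((∀ m, 1 ≤ m → ∀ N : ℕ, ∃ (L : Type) (_ : Field L) (_ : NumberField L),
        IsGalois ℚ L ∧ {χ | occ χ (single0 D m N)} ⊆ irr L) ∧
      ∀ (L : Type) [Field L] [NumberField L] [IsGalois ℚ L], ∀ᶠ m in Filter.atTop, ∃ N : ℕ,
        irr L ⊆ {χ | occ χ (single0 D m N)}) ∧
    ((∀ (F : Type) [Field F] [NumberField F] [IsGalois ℚ F], Independent mult (irr F)) ↔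
      ∃ᶠ m in Filter.atTop, ∀ N : ℕ, Independent mult {χ | occ χ (single0 D m N)}) ∧
    (∀ (F : Type) [Field F] [NumberField F] [IsGalois ℚ F], ∀ᶠ m in Filter.atTop,
      (∃ N : ℕ, Independent mult {χ | occ χ (single0 D m N)} → Independent mult (irr F)) ∧
      ∃ e : ℕ, (Independent mult (irr F) ↔ Independent mult
        {χ | occ χ ((D.tw e).obj (D.G (2 * e) (2 * e + 1) (cubG ℚ m)))})) ∧
    ∀ m : ℕ, (univG ℤ m).totalDegree ≤ 3 ∧
      ∀ (R : Type) [CommRing R], MvPolynomial.map (Int.castRingHom R) (univG ℤ m) = univG R m ∧
        Smooth (cubG R m).hom := by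
  obtain ⟨h1, h2, h3⟩ := artin_decides h ha (P := Independent mult) fun S T hST hT =>
    Independent.mono hST hT
  refine ⟨⟨h3, h2⟩, h1, fun F _ _ _ => ?_, cubG_facts⟩
  obtain ⟨Y, hY, hF⟩ := ha.field F
  filter_upwards [h2 F, whole_zero h hY] with m hm hm'
  obtain ⟨N, hN⟩ := hm
  obtain ⟨e, ⟨f⟩⟩ := hm'
  refine ⟨⟨N, fun g => Independent.mono hN g⟩, e, ?_⟩
  have h4 : irr F = {χ | occ χ ((D.tw e).obj (D.G (2 * e) (2 * e + 1) (cubG ℚ m)))} := by
    ext χ
    rw [hF χ, Set.mem_setOf_eq]
    exact ⟨ha.factor (Factor.of_iso f) χ, ha.factor (Factor.of_iso f.symm) χ⟩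
  rw [h4]

end Pool.Agent.Results.MP_0f5a55_nt.PiecesOfOneSequence
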