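import Pool.Agent.H474.SHP.Main

/-!
# The divisors of the Artin L-functions of a Galois extension of `ℚ` are uniformly independent

Let `F/ℚ` be an arbitrary finite Galois extension, let `χ_1, …, χ_k` be irreducible characters of
its group and let `t_1, …, t_k` be real numbers such that the pairs `(χ_i, t_i)` are different.  Let
`L_i` be the meromorphic continuation of the Artin L-function `L(s, χ_i, F/ℚ)`.  For every `ε > 0`
there is `T₀` such that for all `T ≥ T₀` and for ALL real numbers `λ_1, …, λ_k`, not all zero, at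
least `(1/12 - ε) (T/2π) log T` points `s` of the strip `0 < Re s < 1`, `T < Im s ≤ 2T` satisfy

`∑ λ_i ord_{s + i t_i} L_i ≠ 0`.

The constant `1/12` is absolute: it does not depend on `F`, on the number and the degrees of the
characters, on the shifts, and the bound is uniform in the `λ_i`.  In other words: consider the
vectors `v(s) = (ord_{s + i t_1} L_1, …, ord_{s + i t_k} L_k)`.  Outside every hyperplane of `ℝ^k`
there are at least `(1/12 - ε) (T/2π) log T` of the vectors `v(s)`.  (`(T/2π) log T` is, up to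
`O(T)`, the number of zeros of `ζ(s)` with `T < Im s ≤ 2T`.)  No hypothesis is used; the functions
may have poles and zeros off the critical line.

The proof: the rank of the operator `∑ a_z k_z ⊗ k_z̄` (`a_z = ∑ λ_i ord L_i`) on a space of
functions of exponential type `≈ (1/4) log T` is bounded from below through its trace norm and its
Hilbert-Schmidt norm; the latter is evaluated (with the sharp constant, uniformly in `λ`) by the
explicit formula and Selberg orthonormality for Artin L-functions with twists, the former by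
the second and fourth moments of a Dirichlet polynomial over the primes.
-/

open NumberField Filter Complex
open Pool.Agent.Q92.AR (artinL)
open Pool.Agent.H541R3.ART (Irr)

namespace Pool.Agent.Results.MP_0f5a55_nt.UniformIndependence

/-- `L` is the meromorphic continuation to `ℂ` of the Artin L-function of the character `χ` of
`Gal(F/ℚ)` (without the Euler factors at the primes which ramify in `F`). -/
def IsArtinL (F : Type) [Field F] [NumberField F] (χ : (F ≃ₐ[ℚ] F) → ℂ) (L : ℂ → ℂ) : Prop :=
  MeromorphicOn L Set.univ ∧ ∀ s : ℂ, 1 < s.re → L s = artinL F χ s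

/-- The order of the meromorphic function `L` at `s`: positive at zeros, negative at poles. -/
noncomputable def ord (L : ℂ → ℂ) (s : ℂ) : ℤ := (meromorphicOrderAt L s).untop₀

/-- **Main theorem.** -/
theorem result (F : Type) [Field F] [NumberField F] [IsGalois ℚ F] :
    (∀ χ ∈ Irr (F ≃ₐ[ℚ] F), ∃ L : ℂ → ℂ, IsArtinL F χ L) ∧
    ∀ (k : ℕ) (χ : Fin k → (F ≃ₐ[ℚ] F) → ℂ) (t : Fin k → ℝ) (L : Fin k → ℂ → ℂ),
      (∀ i, χ i ∈ Irr (F ≃ₐ[ℚ] F)) → (∀ i j, i ≠ j → χ i ≠ χ j ∨ t i ≠ t j) →
      (∀ i, IsArtinL F (χ i) (L i)) →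
      ∀ ε : ℝ, 0 < ε → ∃ T₀ : ℝ, ∀ T : ℝ, T₀ ≤ T → ∀ lam : Fin k → ℝ, lam ≠ 0 →
        (1 / 12 - ε) * (T / (2 * Real.pi) * Real.log T) ≤
          ({s : ℂ | 0 < s.re ∧ s.re < 1 ∧ T < s.im ∧ s.im ≤ 2 * T ∧
            ∑ i, lam i * (ord (L i) (s + I * t i) : ℝ) ≠ 0}.ncard : ℝ) := by
  refine ⟨fun χ hχ => ?_, fun k χ t L hχ hne hL ε hε => ?_⟩
  · obtain ⟨κ, hκ, m, d, a, G, hD⟩ := Pool.Agent.H474.ART.exists_BD hχ
    exact hD.ex
  · obtain ⟨T₀, h⟩ := eventually_atTop.1 (Pool.Agent.H474.SHP.sharp χ hχ t hne L hL hε)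
    refine ⟨T₀, fun T hT lam hlam => ?_⟩
    refine ((h T hT lam hlam).2).trans (le_of_eq ?_)
    congr 2
    ext s
    constructor
    · rintro ⟨⟨g1, g2, g3, g4⟩, g5⟩
      exact ⟨g1, g2, g3, g4, g5⟩
    · rintro ⟨g1, g2, g3, g4, g5⟩
      exact ⟨⟨g1, g2, g3, g4⟩, g5⟩

end Pool.Agent.Results.MP_0f5a55_nt.UniformIndependence
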